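import Pool.Agent.R632.WTop

/-! A profinite branch group `U` on the binary tree which is commensurable with `U ^ n` for all `n`,
while no rigid level stabiliser is an `n`-th power of a group unless `n` is a power of two. -/

namespace Pool.Agent.Results.MP_ded1c1b5_al.RigidNotPower

open Equiv Pool.Agent.R632.Port Pool.Agent.R632

/-- Automorphisms of the rooted tree of the words over the alphabet `X`: permutations of the words
which preserve the length and the relation of being an initial segment. -/
def IsTreeAut {X : Type} (g : Perm (List X)) : Prop :=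
  (∀ w, (g w).length = w.length) ∧ ∀ v w, g v <+: g w ↔ v <+: w

/-- The rigid stabiliser of the vertex `v` : the elements of `U` fixing every word outside the
subtree with root `v`. -/
def rist {X : Type} (U : Subgroup (Perm (List X))) (v : List X) : Set (Perm (List X)) :=
  {g | g ∈ U ∧ ∀ w, ¬ v <+: w → g w = w}

/-- The rigid stabiliser of level `m`. -/
def Rist {X : Type} (U : Subgroup (Perm (List X))) (m : ℕ) : Subgroup (Perm (List X)) :=
  Subgroup.closure {g | ∃ v : List X, v.length = m ∧ g ∈ rist U v}

/-- Profinite branch groups of automorphisms of the tree of the words over `X`; closed refers to the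
topology of pointwise convergence `permTop`. -/
def IsProfiniteBranch {X : Type} (U : Subgroup (Perm (List X))) : Prop :=
  (∀ g ∈ U, IsTreeAut g) ∧ IsClosed (U : Set (Perm (List X))) ∧
    (∀ v w : List X, v.length = w.length → ∃ g ∈ U, g v = w) ∧ ∀ m, (Rist U m).relIndex U ≠ 0

/-- Commensurable topological groups: some open subgroups are isomorphic as topological groups. -/
def Commensurable (A B : Type) [Group A] [TopologicalSpace A] [Group B] [TopologicalSpace B] :
    Prop :=
  ∃ (V : Subgroup A) (V' : Subgroup B), IsOpen (V : Set A) ∧ IsOpen (V' : Set B) ∧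
    Nonempty (V ≃ₜ* V')

/-- the whole group as a topological group is isomorphic to the top subgroup -/
def topIso (B : Type) [Group B] [TopologicalSpace B] : B ≃ₜ* (⊤ : Subgroup B) :=
  { Subgroup.topEquiv.symm with
    continuous_toFun := Continuous.subtype_mk continuous_id _
    continuous_invFun := continuous_subtype_val }

lemma comm_of {A B : Type} [Group A] [TopologicalSpace A] [T2Space A] [Group B]
    [TopologicalSpace B] [CompactSpace B] (f : B →* A) (hf : Continuous f)
    (hi : Function.Injective f) (ho : IsOpen (Set.range f)) : Commensurable A B :=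
  ⟨f.range, ⊤, ho, isOpen_univ, ⟨(W.rangeEquiv f hf hi).symm.trans (topIso B)⟩⟩

/-- the group of all automorphisms of the binary tree given by portraits -/
def U : Subgroup (Perm (List (ZMod 2))) := (W.toPerm : W (ZMod 2) →* _).range

lemma two_cases : ∀ x : ZMod 2, x = 0 ∨ x = 1 := by decide

lemma U_compact : IsCompact (U : Set (Perm (List (ZMod 2)))) :=
  isCompact_range W.continuous_toPerm

instance : CompactSpace U := isCompact_iff_compactSpace.mp U_compact

/-- the identification of the portraits with `U` -/
noncomputable def e : W (ZMod 2) ≃ₜ* U := W.rangeEquiv W.toPerm W.continuous_toPerm W.toPerm_injective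

lemma e_apply (g : W (ZMod 2)) : ((e g : U) : Perm (List (ZMod 2))) = W.toPerm g := rfl

lemma Rist_eq (m : ℕ) : Rist U m = (W.Pow (⊤ : Subgroup (W (ZMod 2))) m).map W.toPerm := by
  apply le_antisymm
  · unfold Rist
    rw [Subgroup.closure_le]
    rintro _ ⟨v, hv, ⟨g, rfl⟩, hw⟩
    refine ⟨g, ?_, rfl⟩
    have key : ∀ (m : ℕ) (v : List (ZMod 2)) (g : W (ZMod 2)), v.length = m →
        (∀ w, ¬ v <+: w → g.act w = w) → g ∈ W.Pow (⊤ : Subgroup (W (ZMod 2))) m := by
      intro m
      induction m with
      | zero => intro v g _ _; trivial
      | succ m ih =>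
        intro v g hv hw
        cases v with
        | nil => simp at hv
        | cons x v =>
          have h0 : g.l [] = 0 := by
            have h1 := hw [x + 1] (by
              intro h
              rw [List.cons_prefix_cons] at h
              exact absurd h.1 (by simp))
            simpa [W.act] using h1
          rw [W.mem_Pow_succ]
          refine ⟨h0, fun y => ?_⟩
          by_cases hy : y = x
          · subst hy
            refine ih v _ (by simpa using hv) fun w hvw => ?_
            have h1 := hw (y :: w) (by
              intro h
              rw [List.cons_prefix_cons] at h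
              exact hvw h.2)
            rw [W.act, List.cons.injEq] at h1
            exact h1.2
          · have h1 : g.sec y = 1 := by
              apply W.act_injective
              funext w
              have h1 := hw (y :: w) (by
                intro h
                rw [List.cons_prefix_cons] at h
                exact hy h.1.symm)
              rw [W.act, List.cons.injEq] at h1
              rw [h1.2, W.act_one]
            rw [h1]
            exact Subgroup.one_mem _
    exact key m v g hv hw
  · rw [Subgroup.map_le_iff_le_comap]
    apply W.Pow_le_of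
    intro v hv g _
    apply Subgroup.subset_closure
    exact ⟨v, hv, ⟨_, rfl⟩, fun w hw => W.put_act_of_not g hw⟩

lemma isProfiniteBranch : IsProfiniteBranch U := by
  refine ⟨?_, U_compact.isClosed, ?_, ?_⟩
  · rintro _ ⟨g, rfl⟩
    refine ⟨fun w => g.act_length w, fun v w => ⟨fun h => ?_, fun h => g.act_prefix h⟩⟩
    have h1 := (g⁻¹).act_prefix (show g.act v <+: g.act w from h)
    rwa [W.act_inv_act, W.act_inv_act] at h1
  · intro v w hvw
    obtain ⟨g, hg⟩ := W.exists_act_eq v w hvw
    exact ⟨W.toPerm g, ⟨g, rfl⟩, hg⟩
  · intro m
    rw [Rist_eq, U, MonoidHom.range_eq_map,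
      Subgroup.relIndex_map_map_of_injective _ _ W.toPerm_injective, Subgroup.relIndex_top_right]
    exact W.index_pow_top m

lemma commensurable (n : ℕ) (hn : 1 < n) : Commensurable U (Fin n → U) := by
  obtain ⟨k, rfl⟩ : ∃ k, n = k + 1 := ⟨n - 1, by omega⟩
  have h10 : (1 : ZMod 2) ≠ 0 := by decide
  let f : (Fin (k + 1) → U) →* U := MonoidHom.mk' (fun g => e (W.comb 1 k (fun i => e.symm (g i))))
    (by
      intro g h
      rw [← map_mul, ← W.comb_mul]
      congr 2
      funext i
      exact map_mul e.symm (g i) (h i))
  have hf : ∀ g, f g = e (W.comb 1 k (fun i => e.symm (g i))) := fun _ => rfl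
  apply comm_of f
  · exact e.continuous_toFun.comp ((W.comb_continuous 1 k).comp
      (continuous_pi fun i => e.continuous_invFun.comp (continuous_apply i)))
  · intro g h hgh
    rw [hf, hf] at hgh
    have h1 := W.comb_injective h10 k (e.injective hgh)
    funext i
    exact e.symm.injective (congrFun h1 i)
  · have h1 : Set.range f = e.symm ⁻¹' Set.range (W.comb 1 k) := by
      ext x
      constructor
      · rintro ⟨g, rfl⟩
        exact ⟨_, (e.symm_apply_apply _).symm⟩
      · rintro ⟨g, hg⟩
        refine ⟨fun i => e (g i), ?_⟩
        rw [hf]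
        have h2 : (fun i => e.symm (e (g i))) = g := by
          funext i
          exact e.symm_apply_apply _
        rw [h2, hg, e.apply_symm_apply]
    rw [h1]
    exact (W.isOpen_range_comb two_cases h10 k).preimage e.continuous_invFun

/-- There is a profinite branch group `U` on the binary rooted tree such that for every `n > 1` which
is not a power of two, `U` is commensurable with `U ^ n` but no rigid level stabiliser `Rist U m` is
isomorphic, even as an abstract group, to `K ^ n` for any group `K`. -/
theorem result : ∃ U : Subgroup (Perm (List (ZMod 2))), IsProfiniteBranch U ∧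
    ∀ n : ℕ, 1 < n → (∀ k, n ≠ 2 ^ k) → Commensurable U (Fin n → U) ∧
      ∀ (m : ℕ) (K : Type) [Group K], IsEmpty (Rist U m ≃* (Fin n → K)) := by
  refine ⟨U, isProfiniteBranch, fun n hn hn2 => ⟨commensurable n hn, fun m K _ => ⟨fun e' => ?_⟩⟩⟩
  obtain ⟨I, _, _, hI, ⟨e₁⟩⟩ := W.pow_equiv (X := ZMod 2) m
  have e₂ : W.Pow (⊤ : Subgroup (W (ZMod 2))) m ≃* Rist U m :=
    (Subgroup.equivMapOfInjective _ _ W.toPerm_injective).trans
      (MulEquiv.subgroupCongr (Rist_eq m).symm)
  have h1 := KS.card_dvd W.indec W.centerless W.nontrivial ((e₁.trans e₂).trans e')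
  rw [hI, Fintype.card_fin, ZMod.card] at h1
  obtain ⟨k, _, hk⟩ := (Nat.dvd_prime_pow Nat.prime_two).mp h1
  exact hn2 k hk

end Pool.Agent.Results.MP_ded1c1b5_al.RigidNotPower
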